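import Pool.Agent.Q7.CJ.Stm

/-!
# Project CJ (helper7), job NMM: the value of `y` at ideals, and the points `T`, `- T`
-/

set_option autoImplicit false

namespace Pool.Agent.Q296.CJ

open Polynomial Pool.Agent.Q7.CJ

/-! ## The determinant in a short exact sequence -/

theorem det_exact {L M N K : Type} [Field L] [AddCommGroup M] [Module L M] [AddCommGroup N] [Module L N]
    [AddCommGroup K] [Module L K] [FiniteDimensional L M] (f : M →ₗ[L] M) (fK : K →ₗ[L] K) (fN : N →ₗ[L] N)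
    (h : K →ₗ[L] M) (g : M →ₗ[L] N) (hi : Function.Injective h) (hs : Function.Surjective g)
    (he : LinearMap.range h = LinearMap.ker g) (h1 : ∀ k, f (h k) = h (fK k)) (h2 : ∀ m, g (f m) = fN (g m)) :
    LinearMap.det f = LinearMap.det fK * LinearMap.det fN := by
  have hW : LinearMap.ker g ≤ (LinearMap.ker g).comap f := by
    intro m hm
    rw [Submodule.mem_comap, LinearMap.mem_ker, h2, LinearMap.mem_ker.1 hm, map_zero]
  rw [LinearMap.det_eq_det_mul_det (LinearMap.ker g) f hW]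
  congr 1
  · let e : K ≃ₗ[L] LinearMap.ker g := (LinearEquiv.ofInjective h hi).trans (LinearEquiv.ofEq _ _ he)
    have hee : ∀ k, ((e k : LinearMap.ker g) : M) = h k := fun k => rfl
    have h3 : f.restrict hW = (e : K →ₗ[L] LinearMap.ker g) ∘ₗ fK ∘ₗ (e.symm : LinearMap.ker g →ₗ[L] K) := by
      apply LinearMap.ext
      intro w
      obtain ⟨k, rfl⟩ := e.surjective w
      apply Subtype.ext
      rw [LinearMap.coe_restrict_apply, LinearMap.comp_apply, LinearMap.comp_apply, LinearEquiv.coe_coe,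
        LinearEquiv.coe_coe, LinearEquiv.symm_apply_apply, hee, hee, h1]
    rw [h3]
    exact LinearMap.det_conj fK e
  · let e : (M ⧸ LinearMap.ker g) ≃ₗ[L] N := g.quotKerEquivOfSurjective hs
    have hee : ∀ m, e (Submodule.Quotient.mk m) = g m := fun m => rfl
    have h3 : (LinearMap.ker g).mapQ (LinearMap.ker g) f hW =
        (e.symm : N →ₗ[L] (M ⧸ LinearMap.ker g)) ∘ₗ fN ∘ₗ (e : (M ⧸ LinearMap.ker g) →ₗ[L] N) := by
      apply LinearMap.ext
      intro w
      obtain ⟨m, rfl⟩ := Submodule.Quotient.mk_surjective _ w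
      rw [LinearMap.comp_apply, LinearMap.comp_apply, LinearEquiv.coe_coe, LinearEquiv.coe_coe, hee, ← h2,
        Submodule.mapQ_apply, ← hee, LinearEquiv.symm_apply_apply]
    rw [h3]
    exact LinearMap.det_conj fN e.symm

/-! ## The norm from `B / I` is multiplicative in `I` -/

theorem norm_mul {L B : Type} [Field L] [CommRing B] [IsDedekindDomain B] [Algebra L B] (I J : Ideal B)
    (hI : I ≠ ⊥) (hJ : J ≠ ⊥) [FiniteDimensional L (B ⧸ (I * J))] (b : B) :
    Algebra.norm L (Ideal.Quotient.mk (I * J) b) =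
      Algebra.norm L (Ideal.Quotient.mk I b) * Algebra.norm L (Ideal.Quotient.mk J b) := by
  have hIJ : I * J ≤ I := Ideal.mul_le_left
  have hIJ0 : I * J ≠ 0 := mul_ne_zero hI hJ
  obtain ⟨a, ha⟩ := IsDedekindDomain.exists_sup_span_eq hIJ hIJ0
  have haI : a ∈ I := by
    rw [← ha]
    exact Ideal.mem_sup_right (Ideal.mem_span_singleton_self a)
  -- `(a) = I K` with `K` prime to `J`
  obtain ⟨K, hK⟩ : I ∣ Ideal.span {a} := Ideal.dvd_iff_le.2 ((Ideal.span_singleton_le_iff_mem I).2 haI)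
  have hKJ : J ⊔ K = ⊤ := by
    have h1 : I * (J ⊔ K) = I * ⊤ := by
      rw [Ideal.mul_sup, ← hK, ha, Ideal.mul_top]
    exact mul_left_cancel₀ hI h1
  have hker : ∀ c : B, a * c ∈ I * J ↔ c ∈ J := by
    intro c
    constructor
    · intro h
      have h1 : Ideal.span {a} * Ideal.span {c} ≤ I * J := by
        rw [Ideal.span_singleton_mul_span_singleton]
        exact (Ideal.span_singleton_le_iff_mem _).2 h
      rw [hK, mul_assoc, ← Ideal.dvd_iff_le, mul_dvd_mul_iff_left hI, Ideal.dvd_iff_le] at h1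
      have h2 : Ideal.span {c} ≤ J := by
        calc Ideal.span {c} = Ideal.span {c} * (J ⊔ K) := by rw [hKJ, Ideal.mul_top]
          _ = Ideal.span {c} * J ⊔ K * Ideal.span {c} := by rw [Ideal.mul_sup, mul_comm K]
          _ ≤ J := sup_le Ideal.mul_le_right h1
      exact (Ideal.span_singleton_le_iff_mem _).1 h2
    · intro h
      exact Ideal.mul_mem_mul haI h
  -- the maps
  let h0 : B →ₗ[B] (B ⧸ (I * J)) := (Submodule.mkQ (I * J)).comp (LinearMap.mulLeft B a)
  have h0a : ∀ c, h0 c = Ideal.Quotient.mk (I * J) (a * c) := fun c => rfl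
  have hle : J ≤ LinearMap.ker h0 := by
    intro c hc
    rw [LinearMap.mem_ker, h0a, Ideal.Quotient.eq_zero_iff_mem]
    exact (hker c).2 hc
  let h1 : (B ⧸ J) →ₗ[B] (B ⧸ (I * J)) := Submodule.liftQ J h0 hle
  have h1a : ∀ c, h1 (Ideal.Quotient.mk J c) = Ideal.Quotient.mk (I * J) (a * c) := fun c => rfl
  let g : (B ⧸ (I * J)) →ₗ[L] (B ⧸ I) := (Ideal.Quotient.factorₐ L hIJ).toLinearMap
  have hga : ∀ c, g (Ideal.Quotient.mk (I * J) c) = Ideal.Quotient.mk I c := fun c => rfl
  have hinj : Function.Injective (h1.restrictScalars L) := by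
    rw [← LinearMap.ker_eq_bot, LinearMap.ker_eq_bot']
    intro m hm
    obtain ⟨c, rfl⟩ := Ideal.Quotient.mk_surjective m
    have h3 : h1 (Ideal.Quotient.mk J c) = 0 := hm
    rw [h1a, Ideal.Quotient.eq_zero_iff_mem, hker] at h3
    exact Ideal.Quotient.eq_zero_iff_mem.2 h3
  have hsur : Function.Surjective g := by
    intro m
    obtain ⟨c, rfl⟩ := Ideal.Quotient.mk_surjective m
    exact ⟨Ideal.Quotient.mk (I * J) c, hga c⟩
  have hex : LinearMap.range (h1.restrictScalars L) = LinearMap.ker g := by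
    apply le_antisymm
    · rintro _ ⟨m, rfl⟩
      obtain ⟨c, rfl⟩ := Ideal.Quotient.mk_surjective m
      rw [LinearMap.mem_ker]
      change g (h1 (Ideal.Quotient.mk J c)) = 0
      rw [h1a, hga, Ideal.Quotient.eq_zero_iff_mem]
      exact Ideal.mul_mem_right _ _ haI
    · intro m hm
      obtain ⟨c, rfl⟩ := Ideal.Quotient.mk_surjective m
      rw [LinearMap.mem_ker, hga, Ideal.Quotient.eq_zero_iff_mem, ← ha] at hm
      obtain ⟨u, hu, v, hv, huv⟩ := Submodule.mem_sup.1 hm
      obtain ⟨w, rfl⟩ := Ideal.mem_span_singleton'.1 hv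
      refine ⟨Ideal.Quotient.mk J w, ?_⟩
      change h1 (Ideal.Quotient.mk J w) = _
      rw [h1a, Ideal.Quotient.eq, ← huv]
      have h4 : a * w - (u + w * a) = -u := by ring
      rw [h4]
      exact neg_mem hu
  rw [Algebra.norm_apply, Algebra.norm_apply, Algebra.norm_apply]
  refine (det_exact _ _ _ (h1.restrictScalars L) g hinj hsur hex ?_ ?_).trans (mul_comm _ _)
  · intro m
    obtain ⟨c, rfl⟩ := Ideal.Quotient.mk_surjective m
    change Ideal.Quotient.mk (I * J) b * h1 (Ideal.Quotient.mk J c) =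
      h1 (Ideal.Quotient.mk J b * Ideal.Quotient.mk J c)
    rw [← map_mul, h1a, h1a, ← map_mul]
    congr 1
    ring
  · intro m
    obtain ⟨c, rfl⟩ := Ideal.Quotient.mk_surjective m
    change g (Ideal.Quotient.mk (I * J) b * Ideal.Quotient.mk (I * J) c) =
      Ideal.Quotient.mk I b * g (Ideal.Quotient.mk (I * J) c)
    rw [← map_mul, hga, hga, ← map_mul]

/-! ## The points -/

section pts

variable (p : ℕ) [Fact p.Prime] [Fact (p ≠ 2)] {L : Type} [Field L] (D : L)

omit [Fact p.Prime] [Fact (p ≠ 2)] in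
theorem algMap (a : L) : algebraMap L (BR p D) a = cc p D a := rfl

omit [Fact p.Prime] [Fact (p ≠ 2)] in
theorem ev_cc (x₀ y₀ : L) (h : x₀ ^ p = y₀ ^ 2 + D * y₀) (a : L) : ev p D x₀ y₀ h (cc p D a) = a := by
  unfold cc
  rw [ev_of, eval_C]

omit [Fact p.Prime] [Fact (p ≠ 2)] in
theorem cc_zero : cc p D 0 = 0 := by
  rw [← algMap, map_zero]

omit [Fact p.Prime] [Fact (p ≠ 2)] in
theorem sub_ev_mem (y₀ : L) (h : (0 : L) ^ p = y₀ ^ 2 + D * y₀) (b : BR p D) :
    b - cc p D (ev p D 0 y₀ h b) ∈ Ideal.span {xx p D, yy p D - cc p D y₀} := by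
  have hx : xx p D ∈ Ideal.span {xx p D, yy p D - cc p D y₀} := Ideal.subset_span (Set.mem_insert _ _)
  have hy : yy p D - cc p D y₀ ∈ Ideal.span {xx p D, yy p D - cc p D y₀} :=
    Ideal.subset_span (Set.mem_insert_of_mem _ rfl)
  obtain ⟨q, rfl⟩ := AdjoinRoot.mk_surjective b
  induction q using Polynomial.induction_on' with
  | add q r hq hr =>
    have h1 : AdjoinRoot.mk (ff p D) (q + r) - cc p D (ev p D 0 y₀ h (AdjoinRoot.mk (ff p D) (q + r))) =
        (AdjoinRoot.mk (ff p D) q - cc p D (ev p D 0 y₀ h (AdjoinRoot.mk (ff p D) q))) +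
        (AdjoinRoot.mk (ff p D) r - cc p D (ev p D 0 y₀ h (AdjoinRoot.mk (ff p D) r))) := by
      rw [map_add, map_add, ← algMap, ← algMap, ← algMap, map_add]
      ring
    rw [h1]
    exact add_mem hq hr
  | monomial n g =>
    have h1 : AdjoinRoot.mk (ff p D) (monomial n g) = AdjoinRoot.of (ff p D) g * xx p D ^ n := by
      rw [← C_mul_X_pow_eq_monomial, map_mul, map_pow, AdjoinRoot.mk_C, AdjoinRoot.mk_X]
      rfl
    have h2 : ev p D 0 y₀ h (AdjoinRoot.of (ff p D) g * xx p D ^ n) = g.eval y₀ * 0 ^ n := by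
      rw [map_mul, map_pow, ev_of, ev_xx]
    rw [h1, h2]
    rcases Nat.eq_zero_or_pos n with rfl | hn
    · rw [pow_zero, pow_zero, mul_one, mul_one]
      have h3 : AdjoinRoot.of (ff p D) g - cc p D (g.eval y₀) = AdjoinRoot.of (ff p D) (g - C (g.eval y₀)) := by
        rw [map_sub]
        rfl
      obtain ⟨r, hr⟩ := dvd_iff_isRoot.2 (show (g - C (g.eval y₀)).IsRoot y₀ by
        rw [IsRoot.def, eval_sub, eval_C, sub_self])
      rw [h3, hr, map_mul]
      refine Ideal.mul_mem_right _ _ ?_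
      have h4 : AdjoinRoot.of (ff p D) (X - C y₀) = yy p D - cc p D y₀ := by
        rw [map_sub]
        rfl
      rw [h4]
      exact hy
    · rw [zero_pow hn.ne', mul_zero, cc_zero, sub_zero]
      exact Ideal.mul_mem_left _ _ (Ideal.pow_mem_of_mem _ hx _ hn)

omit [Fact p.Prime] [Fact (p ≠ 2)] in
theorem ker_ev (y₀ : L) (h : (0 : L) ^ p = y₀ ^ 2 + D * y₀) :
    Ideal.span {xx p D, yy p D - cc p D y₀} = RingHom.ker (ev p D 0 y₀ h) := by
  apply le_antisymm
  · rw [Ideal.span_le]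
    rintro z (rfl | rfl)
    · rw [SetLike.mem_coe, RingHom.mem_ker, ev_xx]
    · rw [SetLike.mem_coe, RingHom.mem_ker, map_sub, ev_yy, ev_cc, sub_self]
  · intro b hb
    have h1 := sub_ev_mem p D y₀ h b
    rw [RingHom.mem_ker] at hb
    rw [hb, cc_zero, sub_zero] at h1
    exact h1

omit [Fact p.Prime] [Fact (p ≠ 2)] in
theorem ev_surj (x₀ y₀ : L) (h : x₀ ^ p = y₀ ^ 2 + D * y₀) : Function.Surjective (ev p D x₀ y₀ h) :=
  fun a => ⟨cc p D a, ev_cc p D x₀ y₀ h a⟩

theorem t1_ker : t1 p D = RingHom.ker (ev p D 0 0 (pt1 p D)) := by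
  rw [← ker_ev p D 0 (pt1 p D), cc_zero, sub_zero]
  rfl

theorem t2_ker : t2 p D = RingHom.ker (ev p D 0 (-D) (pt2 p D)) := by
  rw [← ker_ev p D (-D) (pt2 p D), ← algMap, map_neg, sub_neg_eq_add]
  rfl

theorem t1_max : (t1 p D).IsMaximal := by
  rw [t1_ker]
  exact RingHom.ker_isMaximal_of_surjective _ (ev_surj p D _ _ _)

theorem t2_max : (t2 p D).IsMaximal := by
  rw [t2_ker]
  exact RingHom.ker_isMaximal_of_surjective _ (ev_surj p D _ _ _)

theorem two_lt : 2 < p := by
  have h1 := (Fact.out (p := p.Prime)).two_le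
  have h2 : p ≠ 2 := Fact.out
  omega

theorem xx_ne : xx p D ≠ 0 := by
  have h := AdjoinRoot.mk_ne_zero_of_natDegree_lt (ff_monic p D) (g := (X : L[X][X])) X_ne_zero (by
    rw [ff_natDegree, natDegree_X]
    have := two_lt p
    omega)
  rw [AdjoinRoot.mk_X] at h
  exact h

theorem yy_ne : yy p D ≠ 0 := by
  have h := AdjoinRoot.mk_ne_zero_of_natDegree_lt (ff_monic p D) (g := C (X : L[X])) (C_ne_zero.2 X_ne_zero) (by
    rw [ff_natDegree, natDegree_C]
    have := two_lt p
    omega)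
  rw [AdjoinRoot.mk_C] at h
  exact h

theorem t1_ne : t1 p D ≠ ⊥ := by
  intro h
  have h1 : xx p D ∈ t1 p D := Ideal.subset_span (Set.mem_insert _ _)
  rw [h, Ideal.mem_bot] at h1
  exact xx_ne p D h1

theorem t2_ne : t2 p D ≠ ⊥ := by
  intro h
  have h1 : xx p D ∈ t2 p D := Ideal.subset_span (Set.mem_insert _ _)
  rw [h, Ideal.mem_bot] at h1
  exact xx_ne p D h1

theorem t1_mul_t2 (hD : D ≠ 0) : t1 p D * t2 p D = Ideal.span {xx p D} := by
  have hp := two_lt p
  have hc := curve_eq p D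
  unfold t1 t2
  rw [Ideal.span_pair_mul_span_pair]
  apply le_antisymm
  · rw [Ideal.span_le]
    rintro z (rfl | rfl | rfl | rfl)
    · exact Ideal.mem_span_singleton.2 ⟨_, rfl⟩
    · exact Ideal.mem_span_singleton.2 ⟨_, rfl⟩
    · exact Ideal.mem_span_singleton.2 ⟨_, mul_comm _ _⟩
    · refine Ideal.mem_span_singleton.2 ⟨xx p D ^ (p - 1), ?_⟩
      rw [← pow_succ', Nat.sub_add_cancel (by omega), ← hc]
      ring
  · rw [Ideal.span_singleton_le_iff_mem]
    have h1 : xx p D * (yy p D + cc p D D) ∈ Ideal.span {xx p D * xx p D, xx p D * (yy p D + cc p D D),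
        yy p D * xx p D, yy p D * (yy p D + cc p D D)} :=
      Ideal.subset_span (by simp)
    have h2 : yy p D * xx p D ∈ Ideal.span {xx p D * xx p D, xx p D * (yy p D + cc p D D),
        yy p D * xx p D, yy p D * (yy p D + cc p D D)} :=
      Ideal.subset_span (by simp)
    have h3 : cc p D D⁻¹ * cc p D D = 1 := by
      rw [← algMap, ← algMap, ← map_mul, inv_mul_cancel₀ hD, map_one]
    have h4 : xx p D = cc p D D⁻¹ * (xx p D * (yy p D + cc p D D) - yy p D * xx p D) := by
      have : cc p D D⁻¹ * (xx p D * (yy p D + cc p D D) - yy p D * xx p D) =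
          (cc p D D⁻¹ * cc p D D) * xx p D := by ring
      rw [this, h3, one_mul]
    have h5 := Ideal.mul_mem_left _ (cc p D D⁻¹) (sub_mem h1 h2)
    rw [← h4] at h5
    exact h5

omit [Fact p.Prime] [Fact (p ≠ 2)] in
theorem sup_top {P : Ideal (BR p D)} (hP : P.IsMaximal) {z : BR p D} (hz : z ∉ P) : P ⊔ Ideal.span {z} = ⊤ := by
  refine (Ideal.isMaximal_def.1 hP).2 _ (lt_of_le_of_ne le_sup_left ?_)
  intro h
  apply hz
  rw [h]
  exact Ideal.mem_sup_right (Ideal.mem_span_singleton_self _)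

theorem t1_pow (hD : D ≠ 0) [IsDedekindDomain (BR p D)] : t1 p D ^ p = Ideal.span {yy p D} := by
  have hp := two_lt p
  have hc := curve_eq p D
  have h1 : t1 p D ^ p * t2 p D ^ p = Ideal.span {yy p D} * Ideal.span {yy p D + cc p D D} := by
    rw [← mul_pow, t1_mul_t2 p D hD, Ideal.span_singleton_pow, Ideal.span_singleton_mul_span_singleton, ← hc]
    congr 2
    ring
  have hm1 := t1_max p D
  have hm2 := t2_max p D
  have h2 : yy p D + cc p D D ∉ t1 p D := by
    rw [t1_ker, RingHom.mem_ker, map_add, ev_yy, ev_cc, zero_add]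
    exact hD
  have h3 : yy p D ∉ t2 p D := by
    rw [t2_ker, RingHom.mem_ker, ev_yy, neg_eq_zero]
    exact hD
  have h4 : IsCoprime (t1 p D ^ p) (Ideal.span {yy p D + cc p D D}) := by
    refine IsCoprime.pow_left ?_
    rw [Ideal.isCoprime_iff_sup_eq]
    exact sup_top p D hm1 h2
  have h5 : IsCoprime (Ideal.span {yy p D}) (t2 p D ^ p) := by
    refine IsCoprime.pow_right ?_
    rw [Ideal.isCoprime_iff_sup_eq, sup_comm]
    exact sup_top p D hm2 h3
  exact dvd_antisymm (h4.dvd_of_dvd_mul_right ⟨_, h1.symm⟩) (h5.dvd_of_dvd_mul_right ⟨_, h1⟩)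

theorem t1_ne_t2 (hD : D ≠ 0) : t1 p D ≠ t2 p D := by
  intro h
  have h1 : yy p D ∈ t1 p D := Ideal.subset_span (Set.mem_insert_of_mem _ rfl)
  rw [h, t2_ker, RingHom.mem_ker, ev_yy, neg_eq_zero] at h1
  exact hD h1

theorem nm_t2 : nm p D (t2 p D) = -D := by
  have h1 : Ideal.Quotient.mk (t2 p D) (yy p D) = algebraMap L (BR p D ⧸ t2 p D) (-D) := by
    have h2 : algebraMap L (BR p D ⧸ t2 p D) (-D) = Ideal.Quotient.mk (t2 p D) (cc p D (-D)) := rfl
    rw [h2, Ideal.Quotient.eq, ← algMap, map_neg, sub_neg_eq_add]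
    exact Ideal.subset_span (Set.mem_insert_of_mem _ rfl)
  have h3 : Module.finrank L (BR p D ⧸ t2 p D) = 1 := by
    let f : BR p D →ₐ[L] L := { ev p D 0 (-D) (pt2 p D) with commutes' := fun a => ev_cc p D _ _ _ a }
    have hf : Function.Surjective f := ev_surj p D 0 (-D) (pt2 p D)
    have hk : RingHom.ker f = t2 p D := (t2_ker p D).symm
    have e := (Ideal.quotientKerAlgEquivOfSurjective hf).toLinearEquiv.finrank_eq
    rw [Module.finrank_self] at e
    rw [← hk]
    exact e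
  unfold nm
  rw [h1, Algebra.norm_algebraMap, h3, pow_one]

omit [Fact p.Prime] [Fact (p ≠ 2)] in
theorem nm_top : nm p D ⊤ = 1 := by
  have h1 : Subsingleton (BR p D ⧸ (⊤ : Ideal (BR p D))) := Ideal.Quotient.subsingleton_iff.2 rfl
  have h2 : Ideal.Quotient.mk (⊤ : Ideal (BR p D)) (yy p D) = 1 := Subsingleton.elim _ _
  unfold nm
  rw [h2, map_one]

theorem nm_zero_iff (hfd : ∀ I : Ideal (BR p D), I ≠ ⊥ → FiniteDimensional L (BR p D ⧸ I)) (I : Ideal (BR p D))
    (hI : I ≠ ⊥) : nm p D I = 0 ↔ I ≤ t1 p D := by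
  have := hfd I hI
  have hm1 := t1_max p D
  constructor
  · intro h
    have h1 : ¬ IsUnit (Ideal.Quotient.mk I (yy p D)) := by
      intro hu
      have h2 := hu.map (Algebra.norm L)
      unfold nm at h
      rw [h] at h2
      exact not_isUnit_zero h2
    have h2 : I ⊔ Ideal.span {yy p D} ≠ ⊤ := by
      intro h3
      have h4 : (1 : BR p D) ∈ I ⊔ Ideal.span {yy p D} := by
        rw [h3]
        trivial
      obtain ⟨u, hu, v, hv, huv⟩ := Submodule.mem_sup.1 h4
      obtain ⟨w, rfl⟩ := Ideal.mem_span_singleton'.1 hv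
      apply h1
      refine IsUnit.of_mul_eq_one (Ideal.Quotient.mk I w) ?_
      rw [← map_mul, ← map_one (Ideal.Quotient.mk I), Ideal.Quotient.eq]
      have h5 : yy p D * w - 1 = -u := by
        rw [← huv]
        ring
      rw [h5]
      exact neg_mem hu
    obtain ⟨P, hP, hle⟩ := Ideal.exists_le_maximal _ h2
    have hy : yy p D ∈ P := hle (Ideal.mem_sup_right (Ideal.mem_span_singleton_self _))
    have hx : xx p D ∈ P := by
      apply hP.isPrime.mem_of_pow_mem p
      rw [← curve_eq]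
      exact add_mem (Ideal.pow_mem_of_mem _ hy _ two_pos) (Ideal.mul_mem_left _ _ hy)
    have h3 : t1 p D ≤ P := by
      unfold t1
      rw [Ideal.span_le]
      rintro z (rfl | rfl)
      · exact hx
      · exact hy
    have h4 : t1 p D = P := hm1.eq_of_le hP.ne_top h3
    rw [h4]
    exact le_sup_left.trans hle
  · intro h
    by_contra hne
    have h1 : LinearMap.det (Algebra.lmul L (BR p D ⧸ I) (Ideal.Quotient.mk I (yy p D))) ≠ 0 := hne
    have h2 : Function.Surjective (Algebra.lmul L (BR p D ⧸ I) (Ideal.Quotient.mk I (yy p D))) := by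
      have h3 := LinearMap.isUnit_iff_isUnit_det (Algebra.lmul L (BR p D ⧸ I) (Ideal.Quotient.mk I (yy p D)))
      have h4 := h3.2 (isUnit_iff_ne_zero.2 h1)
      exact ((Module.End.isUnit_iff _).1 h4).2
    obtain ⟨z, hz⟩ := h2 1
    obtain ⟨b, rfl⟩ := Ideal.Quotient.mk_surjective z
    have h3 : Ideal.Quotient.mk I (yy p D * b) = Ideal.Quotient.mk I 1 := hz
    rw [Ideal.Quotient.eq] at h3
    have h4 := h h3
    rw [t1_ker, RingHom.mem_ker, map_sub, map_mul, ev_yy, zero_mul, map_one, zero_sub, neg_eq_zero] at h4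
    exact one_ne_zero h4

end pts

theorem nmm : S_DED → S_NMM := by
  intro hded p _ _ L _ _ D hD
  obtain ⟨hdd, hfd⟩ := hded p L D hD
  refine ⟨?_, nm_top p D, nm_zero_iff p D hfd, nm_t2 p D, t1_max p D, t2_max p D, t1_ne p D, t2_ne p D,
    t1_ne_t2 p D hD, t1_mul_t2 p D hD, t1_pow p D hD, t1_ker p D, t2_ker p D⟩
  intro I J hI hJ
  have hIJ : I * J ≠ ⊥ := mul_ne_zero hI hJ
  have := hfd _ hIJ
  exact norm_mul I J hI hJ _

end Pool.Agent.Q296.CJ
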